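import Pool.Agent.H43.PC.AJL

/-!
# The p-adic étale Abel–Jacobi map and planar cubic hypersurfaces

A *gate* is one of the polynomials `x_a`, `x_a - 1`, `x_a - x_b`, `x_a + x_b - x_c`, `x_a x_b - x_c`.
A *lattice system* consists of `N` variables and `r` gates `p_g` with different places in the square
lattice `ℤ²` such that each gate is a neighbour of each of its (different) variables and each variable
is in at most three gates. Its *lattice cubic* is the smooth affine cubic hypersurface
`Z : ∑_g t_g p_g(x) = 1` in the affine space with the coordinates `x`, `t` over `ℚ`.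

For a Chow motive `A` over `ℚ` let `Ker_p(A)` be the kernel of `AJ_p : CH(A)^0 ⟶ H^1(ℚ, V_p(A))`. This
is an additive functor of Chow motives. For a scheme `X` of finite type over `ℚ` the weight complex
`W(X)` of Gillet and Soulé is a complex of Chow motives, so there are complexes `Ker_p(W(X)(n))`.

The proof. Every integral affine scheme of dimension `m` of finite type over `ℚ` has a non-empty smooth
open subscheme which is the scheme of the solutions of a lattice system with `N = r + m`
(`Pool.Agent.H43.PC.exists_lat`). The lattice cubic is an affine bundle of rank `r - 1` over the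
complement of this scheme in `𝔸^N`.
-/

set_option autoImplicit false

open CategoryTheory CategoryTheory.Limits AlgebraicGeometry Pool.Agent.Y116.UV
  Pool.Agent.H71.AR Pool.Agent.H43.PC

namespace Pool.Agent.Results.MP_386e47_ag.LatticeCubics

universe v u w

/-- **The p-adic étale Abel–Jacobi map and lattice cubics.** Let `p` be a prime number, `n` an integer
and `d` a natural number.

(1) The following are equivalent:

* the maps `AJ_p` are injective for all Chow motives `(X, e, n)` over `ℚ` with `dim X ≤ d`;
* the complexes `Ker_p(W(Z)(n + r - 1))` are exact for the lattice cubics `Z` of all lattice systems of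
  `r` gates whose scheme of solutions has dimension at most `d`;
* the same for the lattice systems whose scheme of solutions is integral, smooth and of dimension
  `m = N - r ≤ d`, where `N` is the number of variables.

(2) In this case `AJ_p` is injective for all Chow motives `(X, e, n)` with `dim X ≤ d` over all number
fields `K`. -/
theorem result
    -- the Chow motives over `ℚ`, the weight complexes and the Abel–Jacobi maps
    {M : Type u} [Category.{v} M] [Preadditive M] [HasZeroObject M] [HasBinaryBiproducts M]
    {T : AJData.{v, u, w} ℚ M} {W : Sch ℚ → CochainComplex M ℤ}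
    (hW : IsWeightB (WeightData.mk T.h W) (T.tw (-1))) (hT : IsTwistEt T W) (p : Nat.Primes) (n : ℤ)
    (d : ℕ) :
    List.TFAE [
      ∀ A : M, IsPart T n d A → InjectiveFor T p A,
      ∀ (N r : ℕ) (γ : Fin r → Gate ℚ (Fin N)), OnLattice {0, 1} γ → ringKrullDim (Net γ) ≤ d →
        ExactAJ T W p (n + r - 1) (aff ℚ (HypG γ)),
      ∀ (N r m : ℕ) (γ : Fin r → Gate ℚ (Fin N)), LatCI γ m → m ≤ d →
        ExactAJ T W p (n + r - 1) (aff ℚ (HypG γ))] ∧
    -- the Chow motives over a number field `K`
    ∀ (K : Type) [Field K] [NumberField K] {M' : Type u} [Category.{v} M'] [Preadditive M']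
      {T' : AJData.{v, u, w} K M'} {ρ : M' → M}, IsRestriction T T' ρ →
      (∀ (N r m : ℕ) (γ : Fin r → Gate ℚ (Fin N)), LatCI γ m → m ≤ d →
        ExactAJ T W p (n + r - 1) (aff ℚ (HypG γ))) →
      ∀ A : M', IsPart T' n d A → InjectiveFor T' p A := by
  have h1 := aj_lat hW hT p n d
  have h2 := h1.out 2 0
  refine ⟨h1, ?_⟩
  intro K _ _ M' _ _ T' ρ hρ h A hA
  exact (hρ.shapiro p A).mpr (h2.mp h _ (hρ.part n d A hA))

end Pool.Agent.Results.MP_386e47_ag.LatticeCubics
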