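import Pool.Agent.H71.AR.AJ

/-!
# The p-adic étale Abel–Jacobi map and moduli spaces of line arrangements

A moduli space of line arrangements parametrises the arrangements which consist of the four lines
`X = 0`, `Y = 0`, `Z = 0`, `X + Y + Z = 0` and of `a` lines `X + x_i Y + y_i Z = 0` and `b` lines
`Y + z_j Z = 0` in the projective plane such that exactly the triples of lines in a given set `S` are
not concurrent. `ArrAlg k N` says that `N` is the algebra of functions on such a moduli space over `k`
(it represents the functor of these arrangements) and that the lines are pairwise distinct.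

For a Chow motive `A` let `Ker_p(A)` be the kernel of `AJ_p : CH(A)^0 ⟶ H^1(ℚ, V_p(A))`. This is an
additive functor of Chow motives. For a scheme `X` of finite type over `ℚ` the weight complex `W(X)` of
Gillet and Soulé is a complex of Chow motives, so there are complexes `Ker_p(W(X)(n))`.

The proof uses a form of the universality theorem of Mnëv, Sturmfels and Lafforgue which preserves the
dimension: every integral affine scheme of finite type over `ℚ` has a non-empty smooth open subscheme
which is isomorphic to a moduli space of line arrangements (`Pool.Agent.H71.AR.exists_nice`).
-/

set_option autoImplicit false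

open CategoryTheory CategoryTheory.Limits AlgebraicGeometry Pool.Agent.Y116.UV
  Pool.Agent.H71.AR

namespace Pool.Agent.Results.MP_386e47_ag.LineArrangements

universe v u w

/-- **The p-adic étale Abel–Jacobi map and line arrangements.** Let `p` be a prime number, `n` an
integer and `d` a natural number.

(1) The maps `AJ_p` are injective for all Chow motives `(X, e, n)` over `ℚ` with `dim X ≤ d` if and only
if the complexes `Ker_p(W(N)(n))` are exact for all smooth integral moduli spaces `N` of line
arrangements over `ℚ` of dimension at most `d`.

(2) In this case `AJ_p` is injective for all Chow motives `(X, e, n)` with `dim X ≤ d` over all number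
fields `K`. -/
theorem result
    -- the Chow motives over `ℚ`, the weight complexes and the Abel–Jacobi maps
    {M : Type u} [Category.{v} M] [Preadditive M] [HasZeroObject M] [HasBinaryBiproducts M]
    {W : Sch ℚ → CochainComplex M ℤ} {T : AJData.{v, u, w} ℚ M}
    (hW : IsWeight (WeightData.mk T.h W)) (p : Nat.Primes) (n : ℤ) (d : ℕ) :
    ((∀ A : M, IsPart T n d A → InjectiveFor T p A) ↔ AllExact T W p n d) ∧
    -- the Chow motives over a number field `K`
    ∀ (K : Type) [Field K] [NumberField K] {M' : Type u} [Category.{v} M'] [Preadditive M']
      {T' : AJData.{v, u, w} K M'} {ρ : M' → M}, IsRestriction T T' ρ → AllExact T W p n d →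
      ∀ A : M', IsPart T' n d A → InjectiveFor T' p A := by
  refine ⟨aj_dim hW p n d, ?_⟩
  intro K _ _ M' _ _ T' ρ hρ h A hA
  exact (hρ.shapiro p A).mpr ((aj_dim hW p n d).mpr h _ (hρ.part n d A hA))

end Pool.Agent.Results.MP_386e47_ag.LineArrangements
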